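import Pool.Agent.H37.CTO.Stmts

/-!
# Board cto, row P5H
-/

set_option autoImplicit false

namespace Pool.CND

open Finset Polynomial

namespace P5H

section

variable {K : Type} [Field K]

/-- the last column of the inverse of the Moore matrix -/
noncomputable def E (q s : ℕ) (u : Fin (s + 1) → K) (l : Fin (s + 1)) : K :=
  (-1) ^ (s + l.val) * (Mo q s (u ∘ l.succAbove) / Mo q (s + 1) u)

theorem frob {p : ℕ} (hp : p.Prime) [CharP K p] (f q : ℕ) (hq : q = p ^ f) :
    ∃ φ : ℕ → (K →+* K), ∀ e x, φ e x = x ^ q ^ e := by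
  have : ExpChar K p := ExpChar.prime hp
  exact ⟨fun e => iterateFrobenius K p (f * e), fun e x => by
    rw [iterateFrobenius_def, pow_mul, hq]⟩

theorem Mo_map {K' : Type} [Field K'] (φ : K →+* K') (q s : ℕ) (v : Fin s → K) :
    φ (Mo q s v) = Mo q s (φ ∘ v) := by
  unfold Mo
  rw [RingHom.map_det]
  congr 1
  ext i j
  simp

theorem Mo_mul (q s : ℕ) (c : K) (v : Fin s → K) :
    Mo q s (fun i => c * v i) = (∏ i : Fin s, c ^ q ^ (i : ℕ)) * Mo q s v := by
  unfold Mo
  rw [← Matrix.det_mul_column]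
  congr 1
  ext i j
  simp [mul_pow]

theorem E_mul (q s : ℕ) {c : K} (hc : c ≠ 0) (u : Fin (s + 1) → K) (l : Fin (s + 1)) :
    E q s (fun i => c * u i) l * c ^ q ^ s = E q s u l := by
  unfold E
  have h1 : (fun i => c * u i) ∘ l.succAbove = fun i => c * (u ∘ l.succAbove) i := rfl
  rw [h1, Mo_mul, Mo_mul, Fin.prod_univ_castSucc]
  simp only [Fin.val_castSucc, Fin.val_last]
  have h2 : (∏ i : Fin s, c ^ q ^ (i : ℕ)) ≠ 0 :=
    prod_ne_zero_iff.2 fun i _ => pow_ne_zero _ hc
  have h3 : c ^ q ^ s ≠ 0 := pow_ne_zero _ hc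
  rw [mul_assoc (∏ i : Fin s, c ^ q ^ (i : ℕ)), mul_div_mul_left _ _ h2]
  by_cases h4 : Mo q (s + 1) u = 0
  · rw [h4]
    simp
  · field_simp

theorem inv_last (q s : ℕ) (u : Fin (s + 1) → K) (hu : Mo q (s + 1) u ≠ 0) (l : Fin (s + 1)) :
    (Matrix.of fun i j : Fin (s + 1) => u j ^ q ^ (i : ℕ))⁻¹ l (Fin.last s) = E q s u l := by
  have hdet : (Matrix.of fun i j : Fin (s + 1) => u j ^ q ^ (i : ℕ)).det = Mo q (s + 1) u := rfl
  rw [Matrix.inv_def, Matrix.smul_apply, Matrix.adjugate_fin_succ_eq_det_submatrix, hdet,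
    Ring.inverse_eq_inv']
  have h1 : ((Matrix.of fun i j : Fin (s + 1) => u j ^ q ^ (i : ℕ)).submatrix
      (Fin.last s).succAbove l.succAbove).det = Mo q s (u ∘ l.succAbove) := by
    unfold Mo
    congr 1
    ext i j
    simp
  rw [h1, smul_eq_mul, E, Fin.val_last]
  field_simp

theorem indep {p : ℕ} (hp : p.Prime) [CharP K p] (f q s : ℕ) (hq : q = p ^ f)
    (u : Fin (s + 1) → K) (hu : Mo q (s + 1) u ≠ 0) (c : Fin (s + 1) → K)
    (hc : ∀ l, c l ^ q = c l) (h : ∑ l, c l * E q s u l = 0) : c = 0 := by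
  obtain ⟨φ, hφ⟩ := frob (K := K) hp f q hq
  have hq0 : q ≠ 0 := by
    rw [hq]
    exact pow_ne_zero _ hp.ne_zero
  set M : Matrix (Fin (s + 1)) (Fin (s + 1)) K :=
    Matrix.of fun i j : Fin (s + 1) => u j ^ q ^ (i : ℕ) with hM
  have hdet : M.det ≠ 0 := hu
  have hunit : IsUnit M.det := hdet.isUnit
  set a : Fin (s + 1) → K := Matrix.vecMul c M⁻¹ with ha
  have haM : Matrix.vecMul a M = c := by
    rw [ha, Matrix.vecMul_vecMul, Matrix.nonsing_inv_mul M hunit, Matrix.vecMul_one]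
  have hal : a (Fin.last s) = 0 := by
    rw [ha, Matrix.vecMul, dotProduct, ← h]
    refine sum_congr rfl fun l _ => ?_
    rw [hM, inv_last q s u hu l]
  have hcl : ∀ l, ∑ i, a i * u l ^ q ^ (i : ℕ) = c l := fun l => by
    have := congrFun haM l
    rw [Matrix.vecMul, dotProduct] at this
    exact this
  let b : Fin (s + 1) → K := Fin.cases 0 (fun i : Fin s => a i.castSucc ^ q)
  have hb0 : b 0 = 0 := rfl
  have hbs : ∀ i : Fin s, b i.succ = a i.castSucc ^ q := fun i => rfl
  have hbM : Matrix.vecMul b M = c := by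
    funext l
    rw [Matrix.vecMul, dotProduct, Fin.sum_univ_succ, hb0, zero_mul, zero_add]
    have h1 := hcl l
    rw [Fin.sum_univ_castSucc, hal, zero_mul, add_zero] at h1
    have h2 := congrArg (φ 1) h1
    rw [map_sum, hφ, pow_one, hc l] at h2
    rw [← h2]
    refine sum_congr rfl fun i _ => ?_
    rw [hbs, hφ, pow_one, mul_pow, hM]
    simp only [Matrix.of_apply, Fin.val_succ, Fin.val_castSucc]
    rw [pow_succ q, pow_mul]
  have hab : a = b := by
    rw [ha, ← hbM, Matrix.vecMul_vecMul, Matrix.mul_nonsing_inv M hunit, Matrix.vecMul_one]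
  have ha0 : ∀ i, a i = 0 := by
    intro i
    induction i using Fin.induction with
    | zero => rw [hab, hb0]
    | succ i ih =>
      rw [hab, hbs, ih, zero_pow hq0]
  rw [← haM]
  funext l
  rw [Matrix.vecMul, dotProduct]
  simp [ha0]

end

section

variable {k L : Type} [Field k] [Field L] [Algebra k L] (P : Place k L)

theorem ge_inv {x : L} (hx : x ≠ 0) (h0 : P.ord x = 0) : P.Ge x⁻¹ 0 :=
  Or.inr (by rw [P.ord_inv hx, h0, neg_zero])

theorem div_congr {a b a' b' : L} {B : ℤ} (hB : 0 < B) (hb' : b' ≠ 0) (ho : P.ord b' = 0)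
    (ha' : P.Ge a' 0) (h1 : P.Ge (a - a') B) (h2 : P.Ge (b - b') B) :
    b ≠ 0 ∧ P.Ge (a / b - a' / b') B := by
  have h3 := P.ord_add_of_lt hb' (y := b - b') (P.ge_mono h2 (by rw [ho]; omega))
  rw [add_sub_cancel, ho] at h3
  obtain ⟨hb, hob⟩ := h3
  refine ⟨hb, ?_⟩
  have h4 : a / b - a' / b' = ((a - a') * b' - a' * (b - b')) * (b⁻¹ * b'⁻¹) := by
    field_simp
    ring
  rw [h4]
  have h5 : P.Ge (b⁻¹ * b'⁻¹) 0 := by
    have := P.ge_mul (ge_inv P hb hob) (ge_inv P hb' ho)
    simpa using this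
  have h6 : P.Ge ((a - a') * b') B := by
    have := P.ge_mul h1 (Or.inr ho.symm.le : P.Ge b' 0)
    simpa using this
  have h7 : P.Ge (a' * (b - b')) B := by
    have := P.ge_mul ha' h2
    simpa using this
  have := P.ge_mul (P.ge_sub h6 h7) h5
  simpa using this

theorem ge_pow {x : L} {B : ℤ} (h : P.Ge x B) (n : ℕ) : P.Ge (x ^ n) (n * B) := by
  induction n with
  | zero => exact Or.inr (by simp [P.ord_one])
  | succ n ih =>
    rw [pow_succ]
    have := P.ge_mul ih h
    have h2 : ((n + 1 : ℕ) : ℤ) * B = n * B + B := by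
      push_cast
      ring
    rw [h2]
    exact this

theorem ge_or {x y : L} {B : ℤ} (h : P.Ge (x - y) B) : x = y ∨ B ≤ P.ord (x - y) := by
  rcases h with h | h
  · exact Or.inl (sub_eq_zero.1 h)
  · exact Or.inr h

theorem or_ge {x y : L} {B : ℤ} (h : x = y ∨ B ≤ P.ord (x - y)) : P.Ge (x - y) B := by
  rcases h with h | h
  · exact Or.inl (sub_eq_zero.2 h)
  · exact Or.inr h

end

theorem uniq {K : Type} [Field K] (q r : ℕ) (v : Fin (r + 1) → K) (hv : Mo q (r + 1) v ≠ 0)
    (a b : Fin (r + 1) → K)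
    (h : ∀ j : ℕ, j ≤ r → ∑ i, a i * v i ^ q ^ j = ∑ i, b i * v i ^ q ^ j) : a = b := by
  set M : Matrix (Fin (r + 1)) (Fin (r + 1)) K :=
    Matrix.of fun i j : Fin (r + 1) => v j ^ q ^ (i : ℕ) with hM
  have hunit : IsUnit M.det := (show M.det ≠ 0 from hv).isUnit
  have h1 : M.mulVec a = M.mulVec b := by
    funext j
    have h2 := h j.val (by omega)
    rw [Matrix.mulVec, Matrix.mulVec, dotProduct, dotProduct, hM]
    simp only [Matrix.of_apply]
    calc ∑ i, v i ^ q ^ (j : ℕ) * a i = ∑ i, a i * v i ^ q ^ (j : ℕ) :=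
          sum_congr rfl fun i _ => mul_comm _ _
      _ = ∑ i, b i * v i ^ q ^ (j : ℕ) := h2
      _ = ∑ i, v i ^ q ^ (j : ℕ) * b i := sum_congr rfl fun i _ => mul_comm _ _
  have h3 := congrArg (M⁻¹.mulVec) h1
  rwa [Matrix.mulVec_mulVec, Matrix.mulVec_mulVec, Matrix.nonsing_inv_mul M hunit,
    Matrix.one_mulVec, Matrix.one_mulVec] at h3

theorem cst_pow {k F L : Type} [Field k] [Field F] [Fintype F] [Field L] [Algebra F k]
    [Algebra k L] {q : ℕ} (hF : Nat.card F = q) (c : F) : (cst k F L c) ^ q = cst k F L c := by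
  have hFc : Fintype.card F = q := by rw [← Nat.card_eq_fintype_card, hF]
  rw [cst, ← map_pow, ← map_pow, ← hFc, FiniteField.pow_card]

theorem act {p : ℕ} {k F L : Type} [Field k] [Field F] [Fintype F] [Field L] [Algebra F k]
    [Algebra k L] (hp : p.Prime) [CharP L p] {f q s : ℕ} (hf : q = p ^ f)
    (hF : Nat.card F = q) {t : L} {X : Fin (s + 3) → L}
    {G₀ : Subgroup (Matrix.SpecialLinearGroup (Fin (s + 3)) F)} {ρ : G₀ →* (L ≃ₐ[k] L)}
    (hN : NCover k F L t X G₀ ρ) {Y : Fin (s + 1) → L} {Yt Yp h : L} {ζ : k}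
    (hY : PY k F L q s X Y Yt Yp) (hh : h = algebraMap k L ζ * t / Y 0) (w : G₀)
    (w00 : w.1.1 0 0 = 1)
    (w1 : ∀ i j, j ≠ Fin.last (s + 2) → i ≠ 0 → w.1.1 i j = if i = j then 1 else 0)
    (w2 : ∀ j, w.1.1 (Fin.last (s + 2)) j = if Fin.last (s + 2) = j then 1 else 0) :
    ρ w h = h ∧ (∀ l, ρ w (Y l) = Y l) ∧
      ρ w Yt = Yt + ∑ l, cst k F L (w.1.1 (mi s l) (Fin.last (s + 2))) * Y l := by
  obtain ⟨φ, hφ⟩ := frob (K := L) hp f q hf
  have hq0 : q ≠ 0 := by
    rw [hf]
    exact pow_ne_zero _ hp.ne_zero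
  have ht : ρ w t = t := (hN.cov.fixed t).2 (IntermediateField.mem_adjoin_simple_self k t) w
  have l0 : (0 : Fin (s + 3)) ≠ Fin.last (s + 2) := by
    intro h0
    have := congrArg Fin.val h0
    simp at this
  have hX0 : ρ w (X 0) = X 0 := by
    rw [hN.act, Finset.sum_eq_single 0]
    · rw [w00]
      simp [cst]
    · intro j _ hj
      rw [w1 j 0 l0 hj, if_neg hj]
      simp [cst]
    · intro h0
      exact absurd (mem_univ _) h0
  have hmi : ∀ l : Fin (s + 1), mi s l = (Fin.castSucc l).succ := fun l => Fin.ext rfl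
  have hmil : ∀ l : Fin (s + 1), mi s l ≠ Fin.last (s + 2) := by
    intro l h0
    have := congrArg Fin.val h0
    simp only [mi, Fin.val_last] at this
    omega
  have hXm : ∀ l, ρ w (X (mi s l)) = cst k F L (w.1.1 0 (mi s l)) * X 0 + X (mi s l) := by
    intro l
    rw [hN.act, Fin.sum_univ_succ]
    congr 1
    rw [Finset.sum_eq_single (Fin.castSucc l)]
    · rw [w1 _ _ (hmil l) (Fin.succ_ne_zero _), ← hmi, if_pos rfl]
      simp [cst]
    · intro j _ hj
      rw [w1 _ _ (hmil l) (Fin.succ_ne_zero _), if_neg]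
      · simp [cst]
      · rw [hmi]
        exact fun h0 => hj (Fin.succ_injective _ h0)
    · intro h0
      exact absurd (mem_univ _) h0
  have hXt : ρ w (X (Fin.last (s + 2))) = cst k F L (w.1.1 0 (Fin.last (s + 2))) * X 0 +
      (∑ l, cst k F L (w.1.1 (mi s l) (Fin.last (s + 2))) * X (mi s l) +
        X (Fin.last (s + 2))) := by
    rw [hN.act, Fin.sum_univ_succ]
    congr 1
    rw [Fin.sum_univ_castSucc]
    congr 1
    rw [Fin.succ_last, w2, if_pos rfl]
    simp [cst]
  obtain ⟨M1, hM1⟩ : ∃ M1 : L →+ L, ∀ x, M1 x = x ^ q - X 0 ^ (q - 1) * x :=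
    ⟨(φ 1).toAddMonoidHom - AddMonoidHom.mulLeft (X 0 ^ (q - 1)), fun x => by
      have := hφ 1 x
      rw [pow_one] at this
      simp [this]⟩
  have M1c : ∀ (c : F) (x : L), M1 (cst k F L c * x) = cst k F L c * M1 x := by
    intro c x
    rw [hM1, hM1, mul_pow, cst_pow hF]
    ring
  have M10 : M1 (X 0) = 0 := by
    rw [hM1, ← pow_succ, Nat.sub_add_cancel (Nat.one_le_iff_ne_zero.2 hq0), sub_self]
  have hwY : ∀ l, ρ w (Y l) = Y l := by
    intro l
    rw [hY.y, map_sub, map_mul, map_pow, map_pow, hX0, hXm, ← hM1, ← hM1, map_add, M1c, M10,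
      mul_zero, zero_add]
  refine ⟨?_, hwY, ?_⟩
  · rw [hh, map_div₀, map_mul, AlgEquiv.commutes, ht, hwY]
  · rw [hY.yt, map_sub, map_mul, map_pow, map_pow, hX0, hXt, ← hM1, ← hM1, map_add, map_add,
      M1c, M10, mul_zero, zero_add, map_sum, add_comm]
    congr 1
    refine sum_congr rfl fun l _ => ?_
    rw [M1c, hY.y, ← hM1]

end P5H

open P5H in
theorem p5h_thm (mo1 : S_MO1) (mo2 : S_MO2) (mo3 : S_MO3) : S_P5H := by
  intro p k F L _ _ _ _ _ _ _ f q s t X G₀ ρ Y Yt Yp h ζ θ P hp hp2 hchar hf hq hF hX hN hO hY hw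
    hθ0 hθQ hθi hθY hζ hh hh0 hoh hYp
  classical
  have : Fact p.Prime := ⟨hp⟩
  have : CharP k p := hchar
  have : CharP L p := charP_of_injective_algebraMap (algebraMap k L).injective p
  obtain ⟨φ, hφ⟩ := frob (K := L) hp f q hq
  obtain ⟨φk, hφk⟩ := frob (K := k) hp f q hq
  have hA : ∀ w : G₀, w ∈ ram P ρ 1 → ρ w h = h ∧ (∀ l, ρ w (Y l) = Y l) ∧
      ρ w Yt = Yt + ∑ l, cst k F L (w.1.1 (mi s l) (Fin.last (s + 2))) * Y l := fun w hw' =>
    act hp hq hF hN hY hh w (hw w hw').1 (hw w hw').2.1 (hw w hw').2.2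
  refine ⟨hA, ?_⟩
  have hq3 : 3 ≤ q := by
    have h3 : 3 ≤ p := by
      have := hp.two_le
      omega
    calc 3 ≤ p := h3
      _ = p ^ 1 := (pow_one p).symm
      _ ≤ p ^ f := Nat.pow_le_pow_right hp.pos hf
      _ = q := hq.symm
  have hqo : Odd q := by
    rw [hq]
    exact (hp.odd_of_ne_two hp2).pow
  have hY0 : Y 0 ≠ 0 := by
    intro h0
    rw [h0, div_zero] at hh
    exact hh0 hh
  set e : ℤ := -P.ord t with he
  have he0 : 0 < e := by
    have := hO.neg
    omega
  set θL : Fin (s + 1) → L := algebraMap k L ∘ θ with hθL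
  set u : Fin (s + 1) → L := fun l => Y l / Y 0 with hu
  have hYu : Y = fun i => Y 0 * u i := by
    funext i
    rw [hu]
    field_simp
  have huθ : ∀ l, P.Ge (u l - θL l) e := hθY
  have hθg : ∀ l, P.Ge (θL l) 0 := fun l => P.ge_const (θ l)
  have hug : ∀ l, P.Ge (u l) 0 := fun l => by
    have := P.ge_add (P.ge_mono (huθ l) he0.le) (hθg l)
    rwa [sub_add_cancel] at this
  -- the Moore determinant of the constants
  have hM1 := mo1 p k F L f q (s + 1) P θL (fun _ => 0) hp hchar hf hq hF (by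
    intro i c hc _
    have h1 : ∑ j, cst k F L (c j) * θL j =
        algebraMap k L (∑ j, algebraMap F k (c j) * θ j) := by
      rw [map_sum]
      refine sum_congr rfl fun j _ => ?_
      rw [map_mul]
      rfl
    have h2 : ∑ j, algebraMap F k (c j) * θ j ≠ 0 := fun h0 => hc (by rw [hθi c h0]; rfl)
    rw [h1]
    exact ⟨(_root_.map_ne_zero _).2 h2, P.ord_const _ h2⟩)
  obtain ⟨hMθ, hMθo⟩ := hM1
  have hMθo' : P.ord (Mo q (s + 1) θL) = 0 := by
    rw [hMθo]
    simp
  have hMmap : ∀ (m : ℕ) (v : Fin m → k), algebraMap k L (Mo q m v) = Mo q m (algebraMap k L ∘ v) :=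
    fun m v => Mo_map (algebraMap k L) q m v
  have hMθk : Mo q (s + 1) θ ≠ 0 := by
    intro h0
    apply hMθ
    rw [hθL, ← hMmap, h0, map_zero]
  have hq1 : 1 ≤ q := by omega
  have d1 : P.Ge (Mo q (s + 1) u - Mo q (s + 1) θL) e :=
    or_ge P (mo3 k L P q (s + 1) u θL e hq1 he0.le hug hθg fun i => ge_or P (huθ i))
  have d2 : ∀ l : Fin (s + 1), P.Ge (Mo q s (u ∘ l.succAbove) - Mo q s (θL ∘ l.succAbove)) e :=
    fun l => or_ge P (mo3 k L P q s (u ∘ l.succAbove) (θL ∘ l.succAbove) e hq1 he0.le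
      (fun i => hug _) (fun i => hθg _) fun i => ge_or P (huθ _))
  have d3 : ∀ l : Fin (s + 1), P.Ge (Mo q s (θL ∘ l.succAbove)) 0 := fun l => by
    have : Mo q s (θL ∘ l.succAbove) = algebraMap k L (Mo q s (θ ∘ l.succAbove)) := by
      rw [hMmap]
      rfl
    rw [this]
    exact P.ge_const _
  have hMu : Mo q (s + 1) u ≠ 0 := (div_congr P he0 hMθ hMθo' (d3 0) (d2 0) d1).1
  have hEθ : ∀ l, algebraMap k L (E q s θ l) =
      (-1) ^ (s + l.val) * (Mo q s (θL ∘ l.succAbove) / Mo q (s + 1) θL) := by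
    intro l
    rw [E, map_mul, map_pow, map_neg, map_one, map_div₀, hMmap, hMmap]
    rfl
  have dE : ∀ l, P.Ge (E q s u l - algebraMap k L (E q s θ l)) e := by
    intro l
    rw [hEθ, E, ← mul_sub]
    have h1 := (div_congr P he0 hMθ hMθo' (d3 l) (d2 l) d1).2
    have h2 : P.Ge ((-1 : L) ^ (s + l.val)) 0 := by
      have := ge_pow P (x := (-1 : L)) (B := 0) (Or.inr (by rw [P.ord_neg_one])) (s + l.val)
      simpa using this
    have := P.ge_mul h2 h1
    simpa using this
  have hMY : Mo q (s + 1) Y ≠ 0 := by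
    rw [hYu, Mo_mul]
    exact mul_ne_zero (prod_ne_zero_iff.2 fun i _ => pow_ne_zero _ hY0) hMu
  obtain ⟨α, R, hR⟩ := mo2 p k F L f q s Y hp hchar hf hq hF hMY
  have hRY : R Yt = Yp := by rw [hR.prod, hY.yp]
  have hEY : ∀ l, E q s Y l ^ q * Y 0 ^ q ^ (s + 1) = E q s u l ^ q := by
    intro l
    have h1 := E_mul q s hY0 u l
    rw [← hYu] at h1
    rw [← h1, mul_pow, ← pow_mul, ← pow_succ]
  have hsgn : ∀ m : ℕ, ((-1 : L) ^ m) ^ q = (-1) ^ m := by
    intro m
    rw [← pow_mul, mul_comm, pow_mul, hqo.neg_one_pow]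
  have hart : ∀ l, α l Yt ^ q - α l Yt = Yp / Y 0 ^ q ^ (s + 1) * E q s u l ^ q := by
    intro l
    rw [hR.art, hRY, ← hEY l, E, mul_pow, hsgn]
    have : Y 0 ^ q ^ (s + 1) ≠ 0 := pow_ne_zero _ hY0
    field_simp
  set β : Fin (s + 1) → k := fun l => E q s θ l ^ q with hβ
  -- `β` is fixed by the `Q`-th power
  have hβQ : ∀ l, β l ^ q ^ (s + 1) = β l := by
    intro l
    have h1 : ∀ (m : ℕ) (v : Fin m → k), (∀ i, v i ^ q ^ (s + 1) = v i) →
        Mo q m v ^ q ^ (s + 1) = Mo q m v := by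
      intro m v hv
      rw [← hφk (s + 1), Mo_map]
      congr 1
      funext i
      rw [Function.comp_apply, hφk, hv]
    have h2 : E q s θ l ^ q ^ (s + 1) = E q s θ l := by
      rw [← hφk (s + 1), E, map_mul, map_pow, map_neg, map_one, map_div₀, hφk, hφk,
        h1 _ _ hθQ, h1 _ (θ ∘ l.succAbove) fun i => hθQ _]
    rw [hβ]
    simp only
    rw [← pow_mul, mul_comm, pow_mul, h2]
  set Z : Fin (s + 1) → L := fun l =>
    α l Yt - ∑ j ∈ range (s + 1), (algebraMap k L (β l) * h) ^ q ^ j with hZ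
  refine ⟨Z, β, ?_, ?_, ?_⟩
  · intro c hc
    have h1 : (∑ l, algebraMap F k (c l) * E q s θ l) ^ q = 0 := by
      have h2 := hφk 1 (∑ l, algebraMap F k (c l) * E q s θ l)
      rw [pow_one] at h2
      rw [← h2, map_sum, ← hc]
      refine sum_congr rfl fun l _ => ?_
      rw [map_mul, hφk, hφk, pow_one]
      congr 1
      rw [← map_pow]
      congr 1
      have hFc : Fintype.card F = q := by rw [← Nat.card_eq_fintype_card, hF]
      rw [← hFc, FiniteField.pow_card]
    have h3 := indep hp f q s hq θ hMθk (fun l => algebraMap F k (c l)) (fun l => by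
      rw [← map_pow]
      congr 1
      have hFc : Fintype.card F = q := by rw [← Nat.card_eq_fintype_card, hF]
      rw [← hFc, FiniteField.pow_card]) (pow_eq_zero_iff (by omega) |>.1 h1)
    funext l
    exact (_root_.map_eq_zero _).1 (congrFun h3 l)
  · intro w hw' l
    obtain ⟨hwh, hwY, hwt⟩ := hA w hw'
    have heq : ∀ x, (fun i => ρ w (α i x)) = fun i => α i (ρ w x) := by
      intro x
      refine uniq q s Y hMY _ _ fun j hj => ?_
      have h1 := congrArg (ρ w) (hR.sys x j hj)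
      rw [map_pow, map_sum, hR.sys (ρ w x) j hj] at h1
      rw [h1]
      refine sum_congr rfl fun i _ => ?_
      rw [map_mul, map_pow, hwY]
    have h2 : ρ w (α l Yt) = α l (ρ w Yt) := congrFun (heq Yt) l
    obtain ⟨al, hal⟩ : ∃ al : L →+ L, ∀ x, al x = α l x :=
      ⟨AddMonoidHom.mk' (α l) (hR.add l), fun _ => rfl⟩
    have h3 : α l (ρ w Yt) = α l Yt + cst k F L (w.1.1 (mi s l) (Fin.last (s + 2))) := by
      rw [hwt, ← hal, ← hal, map_add, map_sum, Finset.sum_eq_single l]
      · rw [hal, hal, hR.smul, hR.base, if_pos rfl, mul_one]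
      · intro j _ hj
        rw [hal, hR.smul, hR.base, if_neg (Ne.symm hj), mul_zero]
      · intro h0
        exact absurd (mem_univ _) h0
    rw [hZ]
    simp only
    rw [map_sub, h2, h3, map_sum]
    have h4 : ∀ j ∈ range (s + 1), ρ w ((algebraMap k L (β l) * h) ^ q ^ j) =
        (algebraMap k L (β l) * h) ^ q ^ j := by
      intro j _
      rw [map_pow, map_mul, AlgEquiv.commutes, hwh]
    rw [sum_congr rfl h4]
    ring
  · intro l
    have hb : P.Ge (algebraMap k L (β l)) 0 := P.ge_const _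
    -- the telescoping sum
    have htel : (∑ j ∈ range (s + 1), (algebraMap k L (β l) * h) ^ q ^ j) ^ q -
        ∑ j ∈ range (s + 1), (algebraMap k L (β l) * h) ^ q ^ j =
        (algebraMap k L (β l) * h) ^ q ^ (s + 1) - algebraMap k L (β l) * h := by
      have h1 := hφ 1 (∑ j ∈ range (s + 1), (algebraMap k L (β l) * h) ^ q ^ j)
      rw [pow_one] at h1
      rw [← h1, map_sum, ← sum_sub_distrib]
      have h2 : ∀ j ∈ range (s + 1), φ 1 ((algebraMap k L (β l) * h) ^ q ^ j) -
          (algebraMap k L (β l) * h) ^ q ^ j =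
          (fun i => (algebraMap k L (β l) * h) ^ q ^ i) (j + 1) -
          (fun i => (algebraMap k L (β l) * h) ^ q ^ i) j := by
        intro j _
        simp only
        rw [hφ, pow_one, ← pow_mul, ← pow_succ]
      have h3 := Finset.sum_range_sub (fun i => (algebraMap k L (β l) * h) ^ q ^ i) (s + 1)
      rw [sum_congr rfl h2]
      refine h3.trans ?_
      simp
    have hbQ : algebraMap k L (β l) ^ q ^ (s + 1) = algebraMap k L (β l) := by
      rw [← map_pow, hβQ]
    have hZq : Z l ^ q - Z l = (α l Yt ^ q - α l Yt) -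
        ((algebraMap k L (β l) * h) ^ q ^ (s + 1) - algebraMap k L (β l) * h) := by
      rw [← htel, hZ]
      simp only
      have h1 := hφ 1 (α l Yt - ∑ j ∈ range (s + 1), (algebraMap k L (β l) * h) ^ q ^ j)
      have h2 := hφ 1 (α l Yt)
      have h3 := hφ 1 (∑ j ∈ range (s + 1), (algebraMap k L (β l) * h) ^ q ^ j)
      rw [pow_one] at h1 h2 h3
      rw [← h1, ← h2, ← h3, map_sub]
      ring
    set W : L := Yp / Y 0 ^ q ^ (s + 1) with hW
    set ε : L := W - h ^ q ^ (s + 1) + 2 * h with hε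
    set δ : L := E q s u l ^ q - algebraMap k L (β l) with hδ
    have hεg : P.Ge ε (P.ord h + e) := by
      have : P.ord h + e = P.ord h - P.ord t := by rw [he]; ring
      rw [this]
      exact hYp
    have hδg : P.Ge δ (q * e) := by
      have h1 : δ = (E q s u l - algebraMap k L (E q s θ l)) ^ q := by
        have h2 := hφ 1 (E q s u l - algebraMap k L (E q s θ l))
        rw [pow_one, map_sub, hφ, hφ, pow_one] at h2
        rw [← h2, hδ, hβ]
        simp only
        rw [map_pow]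
      rw [h1]
      exact ge_pow P (dE l) q
    have hoh' : ((q ^ (s + 1) : ℕ) : ℤ) * P.ord h = P.ord h - e := by
      push_cast
      have : P.ord t = -e := by rw [he]; ring
      rw [this] at hoh
      linear_combination hoh
    have hoh0 : P.ord h < 0 := by
      by_contra hc
      rw [not_lt] at hc
      have h1 : (0 : ℤ) ≤ (q : ℤ) ^ (s + 1) - 1 := by
        have : (1 : ℤ) ≤ (q : ℤ) ^ (s + 1) := one_le_pow₀ (by exact_mod_cast hq1)
        omega
      have h2 := mul_nonneg h1 hc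
      rw [hoh] at h2
      have := hO.neg
      omega
    have hWg : P.Ge W (P.ord h - e) := by
      have h1 : W = h ^ q ^ (s + 1) - 2 * h + ε := by rw [hε]; ring
      rw [h1]
      refine P.ge_add (P.ge_sub ?_ ?_) (P.ge_mono hεg (by omega))
      · have := ge_pow P (P.ge_ord h) (q ^ (s + 1))
        rwa [hoh'] at this
      · have h2 : P.Ge (2 : L) 0 := by
          have := P.ge_const (2 : k)
          rwa [map_ofNat] at this
        have := P.ge_mul h2 (P.ge_ord h)
        rw [zero_add] at this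
        exact P.ge_mono this (by omega)
    have hfin : Z l ^ q - Z l + algebraMap k L (β l) * h =
        ε * algebraMap k L (β l) + W * δ := by
      rw [hZq, hart, mul_pow, hbQ, hδ, hε]
      ring
    rw [hfin]
    have hgoal : P.ord h - P.ord t = P.ord h + e := by rw [he]; ring
    rw [hgoal]
    refine P.ge_add ?_ ?_
    · have := P.ge_mul hεg hb
      rwa [add_zero] at this
    · refine P.ge_mono (P.ge_mul hWg hδg) ?_
      have : (3 : ℤ) ≤ q := by exact_mod_cast hq3
      nlinarith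

end Pool.CND
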